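import Pool.Agent.Helper40.BQ.E3

/-! MP_986e36_gt, block F1: lifting of geodesics through a submetry. -/

open scoped Topology
open Set Metric Filter

noncomputable section

namespace Helper99.BQ

namespace F1h

section
variable {K : Type*} [Group K] [MetricSpace K] {E : Type*} [NormedAddCommGroup E]
  [InnerProductSpace ℝ E]

/-- private copy of D1 -/
theorem corner' (hK : BiInv K) (e : PreExp K E) {X Y : E} (hX : ‖X‖ = 1) (hY : ‖Y‖ = 1) {s : ℝ}
    (hs : 0 < s) (h : 2 * s ≤ dist (e.exp (s • X) * e.exp (s • Y)) 1) : X = Y := by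
  have h1 : ∀ h : ℝ, 0 < h → h ≤ s → 2 * h ≤ dist (e.exp (h • X) * e.exp (h • Y)) 1 := by
    intro h' hh' hhs
    have e1 : e.exp (s • X) = e.exp ((s - h') • X) * e.exp (h' • X) := by
      rw [← e.add]; congr 2; ring
    have e2 : e.exp (s • Y) = e.exp (h' • Y) * e.exp ((s - h') • Y) := by
      rw [← e.add]; congr 2; ring
    have e3 : e.exp (s • X) * e.exp (s • Y) = e.exp ((s - h') • X) *
        (e.exp (h' • X) * e.exp (h' • Y)) * e.exp ((s - h') • Y) := by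
      rw [e1, e2]; group
    rw [e3] at h
    have a1 := E1h.dist_mul_mul_le hK (e.exp ((s - h') • X) * (e.exp (h' • X) * e.exp (h' • Y)))
      (e.exp ((s - h') • Y)) 1 1
    have a2 := E1h.dist_mul_mul_le hK (e.exp ((s - h') • X)) (e.exp (h' • X) * e.exp (h' • Y)) 1 1
    rw [one_mul] at a1 a2
    have a3 := E3h.dist_exp_one e ((s - h') • X)
    have a4 := E3h.dist_exp_one e ((s - h') • Y)
    rw [norm_smul, Real.norm_of_nonneg (by linarith)] at a3 a4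
    rw [hX] at a3
    rw [hY] at a4
    linarith
  have h2 : ∀ ε : ℝ, 0 < ε → 2 ≤ ‖X + Y‖ + ε := by
    intro ε hε
    obtain ⟨r, hr, hb⟩ := e.bch ε hε
    set h' : ℝ := min s (r / 2) with hh'
    have hpos : 0 < h' := lt_min hs (by positivity)
    have hr' : h' < r := lt_of_le_of_lt (min_le_right _ _) (by linarith)
    have nX : ‖h' • X‖ = h' := by rw [norm_smul, Real.norm_of_nonneg hpos.le, hX, mul_one]
    have nY : ‖h' • Y‖ = h' := by rw [norm_smul, Real.norm_of_nonneg hpos.le, hY, mul_one]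
    obtain ⟨Z, hZ1, hZ2⟩ := hb (h' • X) (h' • Y) (by rw [nX]; exact hr') (by rw [nY]; exact hr')
    have h3 := h1 h' hpos (min_le_left _ _)
    rw [← hZ1] at h3
    have h4 := E3h.dist_exp_one e Z
    rw [nY] at hZ2
    have h5 : ‖Z‖ ≤ ‖Z - h' • X - h' • Y‖ + ‖h' • (X + Y)‖ := by
      have := norm_add_le (Z - h' • X - h' • Y) (h' • (X + Y))
      have e0 : Z - h' • X - h' • Y + h' • (X + Y) = Z := by rw [smul_add]; abel
      rwa [e0] at this
    rw [norm_smul, Real.norm_of_nonneg hpos.le] at h5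
    have h6 : h' * 2 ≤ h' * (‖X + Y‖ + ε) := by nlinarith
    exact le_of_mul_le_mul_left h6 hpos
  have h3 : 2 ≤ ‖X + Y‖ := le_of_forall_pos_le_add h2
  have h4 := parallelogram_law_with_norm ℝ X Y
  rw [hX, hY] at h4
  have h5 : ‖X - Y‖ * ‖X - Y‖ ≤ 0 := by nlinarith
  have h6 : ‖X - Y‖ = 0 := by nlinarith [norm_nonneg (X - Y)]
  exact sub_eq_zero.1 (norm_eq_zero.1 h6)

end

section
variable {K : Type*} [Group K] [MetricSpace K] {E : Type*} [NormedAddCommGroup E]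
  [InnerProductSpace ℝ E] {R : Type*} [MetricSpace R]

theorem step (hK : BiInv K) (e : ExpMap K E) (p : K → R) (hp : Submetry p)
    (c : ℝ → R)
    (geo : ∀ t₀ t : ℝ, 0 ≤ t → t ≤ 1 → dist (c t₀) (c (t₀ + t)) = t)
    (uniq : ∀ t₀ t : ℝ, 0 ≤ t → t ≤ 1 → ∀ z : R, dist (c t₀) z = t →
      dist z (c (t₀ + 1)) = 1 - t → z = c (t₀ + t)) (x : K) (t₀ : ℝ) (hx : p x = c t₀) :
    ∃ X : E, ‖X‖ = 1 ∧ ∀ t : ℝ, 0 ≤ t → t ≤ 1 → p (x * e.exp (t • X)) = c (t₀ + t) := by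
  obtain ⟨b, hb1, hb2⟩ := hp.lift x (c (t₀ + 1))
  rw [hx, geo t₀ 1 zero_le_one le_rfl] at hb2
  obtain ⟨X, hX1, hX2⟩ := e.surj (x⁻¹ * b)
  have hX3 : ‖X‖ = 1 := by
    rw [hX2, ← hb2, ← hK.left x 1 (x⁻¹ * b)]
    simp
  have hb3 : b = x * e.exp X := by rw [hX1]; simp
  refine ⟨X, hX3, fun t h0 h1 => ?_⟩
  have a1 : dist (c t₀) (p (x * e.exp (t • X))) ≤ t := by
    rw [← hx]
    refine (hp.le _ _).trans ?_
    nth_rw 1 [← mul_one x]
    rw [hK.left, dist_comm]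
    refine (E3h.dist_exp_one e.toPreExp _).trans (le_of_eq ?_)
    rw [norm_smul, Real.norm_of_nonneg h0, hX3, mul_one]
  have a2 : dist (p (x * e.exp (t • X))) (c (t₀ + 1)) ≤ 1 - t := by
    rw [← hb1]
    refine (hp.le _ _).trans ?_
    rw [hb3, hK.left]
    refine (e.lip _ _).trans (le_of_eq ?_)
    have : t • X - X = (-(1 - t)) • X := by rw [neg_smul, sub_smul, one_smul]; abel
    rw [this, norm_smul, norm_neg, Real.norm_of_nonneg (by linarith), hX3, mul_one]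
  have a3 := dist_triangle (c t₀) (p (x * e.exp (t • X))) (c (t₀ + 1))
  rw [geo t₀ 1 zero_le_one le_rfl] at a3
  exact uniq t₀ t h0 h1 _ (by linarith) (by linarith)

theorem half (hK : BiInv K) (e : ExpMap K E) (p : K → R) (hp : Submetry p)
    (c : ℝ → R) (h0 : p 1 = c 0)
    (geo : ∀ t₀ t : ℝ, 0 ≤ t → t ≤ 1 → dist (c t₀) (c (t₀ + t)) = t)
    (uniq : ∀ t₀ t : ℝ, 0 ≤ t → t ≤ 1 → ∀ z : R, dist (c t₀) z = t →
      dist z (c (t₀ + 1)) = 1 - t → z = c (t₀ + t)) :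
    ∃ X : E, ‖X‖ = 1 ∧ ∀ t : ℝ, 0 ≤ t → p (e.exp (t • X)) = c t := by
  obtain ⟨X, hX1, hX2⟩ := step hK e p hp c geo uniq 1 0 h0
  have key : ∀ n : ℕ, ∀ t : ℝ, 0 ≤ t → t ≤ 1 →
      p (e.exp (((n : ℝ) / 2 + t) • X)) = c ((n : ℝ) / 2 + t) := by
    intro n
    induction n with
    | zero =>
      intro t ht0 ht1
      have := hX2 t ht0 ht1
      simpa using this
    | succ n ih =>
      have b1 := ih (1 / 2) (by norm_num) (by norm_num)
      have b0 := ih 0 le_rfl zero_le_one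
      rw [add_zero] at b0
      obtain ⟨X1, hX11, hX12⟩ := step hK e p hp c geo uniq (e.exp (((n : ℝ) / 2 + 1 / 2) • X))
        ((n : ℝ) / 2 + 1 / 2) b1
      have b2 := hX12 (1 / 2) (by norm_num) (by norm_num)
      have b3 := hp.le (e.exp (((n : ℝ) / 2) • X))
        (e.exp (((n : ℝ) / 2 + 1 / 2) • X) * e.exp ((1 / 2 : ℝ) • X1))
      rw [b0, b2, show (n : ℝ) / 2 + 1 / 2 + 1 / 2 = (n : ℝ) / 2 + 1 by ring,
        geo _ 1 zero_le_one le_rfl, e.add, mul_assoc] at b3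
      nth_rw 1 [← mul_one (e.exp (((n : ℝ) / 2) • X))] at b3
      rw [hK.left, dist_comm] at b3
      have b4 : X = X1 := corner' hK e.toPreExp hX1 hX11 (s := 1 / 2) (by norm_num)
        (by simpa using b3)
      intro t ht0 ht1
      have b5 := hX12 t ht0 ht1
      rw [← b4, ← e.add] at b5
      have e1 : ((n + 1 : ℕ) : ℝ) / 2 + t = (n : ℝ) / 2 + 1 / 2 + t := by push_cast; ring
      rw [e1]
      exact b5
  refine ⟨X, hX1, fun t ht => ?_⟩
  have h2t : 0 ≤ 2 * t := by linarith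
  have f1 := Nat.floor_le h2t
  have f2 := Nat.lt_floor_add_one (2 * t)
  have := key ⌊2 * t⌋₊ (t - (⌊2 * t⌋₊ : ℝ) / 2) (by linarith) (by linarith)
  simpa using this

end

end F1h

variable {K : Type*} [Group K] [MetricSpace K] {E : Type*} [NormedAddCommGroup E]
  [InnerProductSpace ℝ E] {R : Type*} [MetricSpace R]

/-- F1 -/
theorem exists_lift (hK : BiInv K) (e : ExpMap K E) (p : K → R) (hp : Submetry p)
    (c : ℝ → R) (h0 : p 1 = c 0)
    (geo : ∀ t₀ t : ℝ, 0 ≤ t → t ≤ 1 → dist (c t₀) (c (t₀ + t)) = t)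
    (uniq : ∀ t₀ t : ℝ, 0 ≤ t → t ≤ 1 → ∀ z : R, dist (c t₀) z = t →
      dist z (c (t₀ + 1)) = 1 - t → z = c (t₀ + t)) :
    ∃ X : E, ‖X‖ = 1 ∧ ∀ t : ℝ, p (e.exp (t • X)) = c t := by
  obtain ⟨X, hX1, hX2⟩ := F1h.half hK e p hp c h0 geo uniq
  have geo' : ∀ t₀ t : ℝ, 0 ≤ t → t ≤ 1 → dist (c (-t₀)) (c (-(t₀ + t))) = t := by
    intro t₀ t ht0 ht1
    have := geo (-(t₀ + t)) t ht0 ht1
    rw [show -(t₀ + t) + t = -t₀ by ring] at this
    rw [dist_comm]; exact this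
  have uniq' : ∀ t₀ t : ℝ, 0 ≤ t → t ≤ 1 → ∀ z : R, dist (c (-t₀)) z = t →
      dist z (c (-(t₀ + 1))) = 1 - t → z = c (-(t₀ + t)) := by
    intro t₀ t ht0 ht1 z hz1 hz2
    have := uniq (-(t₀ + 1)) (1 - t) (by linarith) (by linarith) z (by rw [dist_comm]; exact hz2)
      (by rw [dist_comm, show -(t₀ + 1) + 1 = -t₀ by ring, hz1]; ring)
    rw [this]; congr 1; ring
  obtain ⟨Y, hY1, hY2⟩ := F1h.half hK e p hp (fun t => c (-t)) (by simpa using h0) geo' uniq'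
  have b1 := hX2 (1 / 2) (by norm_num)
  have b2 := hY2 (1 / 2) (by norm_num)
  have b3 := hp.le (e.exp ((1 / 2 : ℝ) • Y)) (e.exp ((1 / 2 : ℝ) • X))
  have b4 := geo (-(1 / 2)) 1 zero_le_one le_rfl
  rw [show -(1 / 2 : ℝ) + 1 = 1 / 2 by ring] at b4
  rw [b1, b2, b4] at b3
  have b5 : (e.exp ((1 / 2 : ℝ) • Y))⁻¹ = e.exp ((1 / 2 : ℝ) • (-Y)) := by
    rw [inv_eq_iff_mul_eq_one, smul_neg, ← neg_smul, ← e.add, add_neg_cancel, zero_smul]
    exact E3h.exp_zero e.toPreExp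
  have b6 : (1 : ℝ) ≤ dist (e.exp ((1 / 2 : ℝ) • (-Y)) * e.exp ((1 / 2 : ℝ) • X)) 1 := by
    rw [← b5, ← hK.left (e.exp ((1 / 2 : ℝ) • Y))]
    rw [mul_inv_cancel_left, mul_one, dist_comm]
    exact b3
  have b7 : -Y = X := F1h.corner' hK e.toPreExp (by rw [norm_neg]; exact hY1) hX1
    (s := 1 / 2) (by norm_num) (by simpa using b6)
  refine ⟨X, hX1, fun t => ?_⟩
  rcases le_total 0 t with ht | ht
  · exact hX2 t ht
  · have := hY2 (-t) (by linarith)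
    rw [neg_smul, ← smul_neg, b7, neg_neg] at this
    exact this

end Helper99.BQ
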