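import Pool.Agent.Helper40.BQ.E1

/-! MP_986e36_gt, block E3: conjugates of one-parameter groups. -/

open scoped Topology
open Set Metric Filter

noncomputable section

namespace Helper99.BQ

namespace E3h

section
variable {K : Type*} [Group K] [MetricSpace K]

theorem hom_zero (f : ℝ → K) (hadd : ∀ s t, f (s + t) = f s * f t) : f 0 = 1 := by
  have := hadd 0 0
  rw [add_zero] at this
  exact left_eq_mul.1 this

theorem hom_int (f : ℝ → K) (hadd : ∀ s t, f (s + t) = f s * f t) (t : ℝ) (k : ℤ) :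
    f (k * t) = f t ^ k := by
  let F : Multiplicative ℝ →* K :=
    { toFun := fun x => f x.toAdd
      map_one' := hom_zero f hadd
      map_mul' := fun x y => hadd _ _ }
  have := map_zpow F (Multiplicative.ofAdd t) k
  simpa [F, zsmul_eq_mul] using this

/-- continuous one-parameter groups agreeing at `h / m` for all `m` agree -/
theorem hom_ext {f₁ f₂ : ℝ → K} (h1 : ∀ s t, f₁ (s + t) = f₁ s * f₁ t)
    (h2 : ∀ s t, f₂ (s + t) = f₂ s * f₂ t) (c1 : Continuous f₁) (c2 : Continuous f₂) {h : ℝ}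
    (hh : 0 < h) (heq : ∀ n : ℕ, f₁ (h / ((n : ℝ) + 1)) = f₂ (h / ((n : ℝ) + 1))) (t : ℝ) :
    f₁ t = f₂ t := by
  have key := E1h.tendsto_floor (t / h)
  have key2 : Tendsto (fun n : ℕ => (⌊t / h * ((n : ℝ) + 1)⌋ : ℝ) / ((n : ℝ) + 1) * h) atTop
      (𝓝 t) := by
    have := key.mul_const h
    rwa [div_mul_cancel₀ t hh.ne'] at this
  have t1 := (c1.tendsto t).comp key2
  have t2 := (c2.tendsto t).comp key2
  refine tendsto_nhds_unique t1 (t2.congr fun n => ?_)
  simp only [Function.comp_apply]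
  have e : (⌊t / h * ((n : ℝ) + 1)⌋ : ℝ) / ((n : ℝ) + 1) * h =
      (⌊t / h * ((n : ℝ) + 1)⌋ : ℝ) * (h / ((n : ℝ) + 1)) := by ring
  rw [e, hom_int f₁ h1, hom_int f₂ h2, heq]

end

section
variable {K : Type*} [Group K] [MetricSpace K] {E : Type*} [NormedAddCommGroup E]
  [InnerProductSpace ℝ E]

theorem exp_zero (e : PreExp K E) : e.exp 0 = 1 := by
  have := e.add 0 0 0
  simp only [smul_zero] at this
  exact left_eq_mul.1 this

theorem exp_cont (e : PreExp K E) : Continuous e.exp := by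
  refine (LipschitzWith.of_dist_le_mul (K := 1) fun x y => ?_).continuous
  rw [NNReal.coe_one, one_mul, dist_eq_norm]
  exact e.lip x y

theorem exp_line_cont (e : PreExp K E) (X : E) : Continuous fun t : ℝ => e.exp (t • X) :=
  (exp_cont e).comp (continuous_id.smul continuous_const)

theorem dist_exp_one (e : PreExp K E) (X : E) : dist (e.exp X) 1 ≤ ‖X‖ := by
  rw [← exp_zero e]
  simpa using e.lip X 0

theorem dist_conj (hK : BiInv K) (g x : K) : dist (g * x * g⁻¹) 1 = dist x 1 := by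
  rw [← hK.right g (g * x * g⁻¹) 1, inv_mul_cancel_right, one_mul]
  nth_rw 2 [← mul_one g]
  rw [hK.left]

/-- norm comparison -/
theorem norm_le_of_dist (e : PreExp K E) {X X' : E}
    (h : ∀ t : ℝ, dist (e.exp (t • X')) 1 ≤ dist (e.exp (t • X)) 1) : ‖X'‖ ≤ ‖X‖ := by
  have key : ∀ ε : ℝ, 0 < ε → (1 - ε) * ‖X'‖ ≤ ‖X‖ := by
    intro ε hε
    obtain ⟨r, hr, hlow⟩ := e.lower ε hε
    have hden : 0 < ‖X'‖ + 1 := by positivity
    set t : ℝ := r / 2 / (‖X'‖ + 1) with ht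
    have htpos : 0 < t := by positivity
    have h1 : ‖t • X'‖ < r := by
      rw [norm_smul, Real.norm_of_nonneg htpos.le, ht, div_mul_eq_mul_div, div_lt_iff₀ hden]
      nlinarith [norm_nonneg X']
    have h2 := hlow (t • X') 0 h1 (by simpa using hr)
    rw [sub_zero, exp_zero] at h2
    have h3 := h t
    have h4 := dist_exp_one e (t • X)
    rw [norm_smul, Real.norm_of_nonneg htpos.le] at h2 h4
    have h5 : t * ((1 - ε) * ‖X'‖) ≤ t * ‖X‖ := by
      calc t * ((1 - ε) * ‖X'‖) = (1 - ε) * (t * ‖X'‖) := by ring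
        _ ≤ _ := h2
        _ ≤ _ := h3
        _ ≤ _ := h4
    exact le_of_mul_le_mul_left h5 htpos
  have h2 : Tendsto (fun ε : ℝ => (1 - ε) * ‖X'‖) (𝓝[>] 0) (𝓝 ((1 - 0) * ‖X'‖)) := by
    apply Tendsto.mul_const
    apply Tendsto.const_sub
    exact tendsto_nhdsWithin_of_tendsto_nhds tendsto_id
  have h3 := le_of_tendsto h2 (by
    filter_upwards [self_mem_nhdsWithin] with ε hε using key ε hε)
  simpa using h3

end

end E3h

variable {K : Type*} [Group K] [MetricSpace K] {E : Type*} [NormedAddCommGroup E]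
  [InnerProductSpace ℝ E]

open E3h in
/-- E3 -/
theorem preExp_conj (hK : BiInv K) (e : PreExp K E) (g : K) (X : E) :
    ∃ X' : E, ‖X'‖ = ‖X‖ ∧ ∀ t : ℝ, g * e.exp (t • X) * g⁻¹ = e.exp (t • X') := by
  obtain ⟨ρ, hρ, hlow⟩ := e.lower (1 / 2) (by norm_num)
  obtain ⟨η, hη, hball⟩ := Metric.mem_nhds_iff.1 (e.nhds ρ hρ)
  have hξadd : ∀ s t : ℝ, g * e.exp ((s + t) • X) * g⁻¹ =
      (g * e.exp (s • X) * g⁻¹) * (g * e.exp (t • X) * g⁻¹) := by
    intro s t
    rw [e.add]; group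
  have hξcont : Continuous fun t : ℝ => g * e.exp (t • X) * g⁻¹ := by
    have h1 : Continuous fun x : K => g * x * g⁻¹ := by
      refine (LipschitzWith.of_dist_le_mul (K := 1) fun x y => ?_).continuous
      rw [hK.right, hK.left]; simp
    exact h1.comp (exp_line_cont e X)
  have hden : 0 < ‖X‖ + 1 := by positivity
  have hZ : ∀ t : ℝ, 0 < t → t * ‖X‖ < η → ∃ Z : E, ‖Z‖ < ρ ∧ ‖Z‖ ≤ 2 * (t * ‖X‖) ∧
      e.exp Z = g * e.exp (t • X) * g⁻¹ := by
    intro t ht htη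
    have h1 : dist (g * e.exp (t • X) * g⁻¹) 1 ≤ t * ‖X‖ := by
      rw [dist_conj hK]
      refine (dist_exp_one e _).trans (le_of_eq ?_)
      rw [norm_smul, Real.norm_of_nonneg ht.le]
    obtain ⟨Z, hZ1, hZ2⟩ := hball (show g * e.exp (t • X) * g⁻¹ ∈ ball (1 : K) η from
      lt_of_le_of_lt h1 htη)
    have hZ3 : ‖Z‖ < ρ := by simpa using hZ1
    refine ⟨Z, hZ3, ?_, hZ2⟩
    have h2 := hlow Z 0 hZ3 (by simpa using hρ)
    rw [sub_zero, exp_zero, hZ2] at h2
    linarith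
  set h : ℝ := min η (ρ / 4) / 2 / (‖X‖ + 1) with hh
  have hm : 0 < min η (ρ / 4) := lt_min hη (by positivity)
  have hhpos : 0 < h := by positivity
  have hhX : h * ‖X‖ < min η (ρ / 4) := by
    rw [hh, div_mul_eq_mul_div, div_lt_iff₀ hden]
    nlinarith [norm_nonneg X]
  have hhη : h * ‖X‖ < η := lt_of_lt_of_le hhX (min_le_left _ _)
  have hhρ : h * ‖X‖ < ρ / 4 := lt_of_lt_of_le hhX (min_le_right _ _)
  obtain ⟨Z, hZ1, hZ2, hZ3⟩ := hZ h hhpos hhη
  have hmain : ∀ n : ℕ, g * e.exp ((h / ((n : ℝ) + 1)) • X) * g⁻¹ =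
      e.exp ((h / ((n : ℝ) + 1)) • (h⁻¹ • Z)) := by
    intro n
    have hn : (0 : ℝ) < (n : ℝ) + 1 := by positivity
    have hle : h / ((n : ℝ) + 1) ≤ h := div_le_self hhpos.le (by linarith [hn])
    obtain ⟨Y, hY1, hY2, hY3⟩ := hZ (h / ((n : ℝ) + 1)) (by positivity)
      (lt_of_le_of_lt (mul_le_mul_of_nonneg_right hle (norm_nonneg X)) hhη)
    have h1 : e.exp (((n : ℝ) + 1) • Y) = e.exp Z := by
      have a1 := hom_int (fun t : ℝ => e.exp (t • Y)) (fun s t => e.add Y s t) 1 ((n : ℤ) + 1)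
      have a2 := hom_int (fun t : ℝ => g * e.exp (t • X) * g⁻¹) hξadd (h / ((n : ℝ) + 1))
        ((n : ℤ) + 1)
      simp only [one_smul, mul_one] at a1
      push_cast at a1 a2
      rw [a1, hY3, ← a2, hZ3]
      congr 4
      field_simp
    have h2 : ‖((n : ℝ) + 1) • Y‖ < ρ := by
      rw [norm_smul, Real.norm_of_nonneg hn.le]
      calc ((n : ℝ) + 1) * ‖Y‖ ≤ ((n : ℝ) + 1) * (2 * (h / ((n : ℝ) + 1) * ‖X‖)) := by gcongr
        _ = 2 * (h * ‖X‖) := by field_simp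
        _ < ρ := by linarith
    have h3 := hlow _ _ h2 hZ1
    rw [h1, dist_self] at h3
    have h4 : ((n : ℝ) + 1) • Y = Z := by
      rw [← sub_eq_zero, ← norm_le_zero_iff]
      linarith
    rw [← hY3, ← h4]
    congr 1
    rw [smul_smul, smul_smul]
    have : h / ((n : ℝ) + 1) * h⁻¹ * ((n : ℝ) + 1) = 1 := by
      field_simp
    rw [this, one_smul]
  have hall : ∀ t : ℝ, g * e.exp (t • X) * g⁻¹ = e.exp (t • (h⁻¹ • Z)) :=
    hom_ext (f₁ := fun t : ℝ => g * e.exp (t • X) * g⁻¹)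
      (f₂ := fun t : ℝ => e.exp (t • (h⁻¹ • Z))) hξadd (fun s t => e.add _ s t) hξcont
      (exp_line_cont e _) hhpos hmain
  have hd : ∀ t : ℝ, dist (e.exp (t • (h⁻¹ • Z))) 1 = dist (e.exp (t • X)) 1 := by
    intro t; rw [← hall, dist_conj hK]
  exact ⟨h⁻¹ • Z, le_antisymm (norm_le_of_dist e fun t => (hd t).le)
    (norm_le_of_dist e fun t => (hd t).ge), hall⟩

end Helper99.BQ
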