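import Pool.Agent.Helper38.BQ.H2

/-! MP_986e36_gt, block H3: the holonomy map by completeness. -/

open scoped Quaternion Topology ENNReal
open Set Metric MeasureTheory Filter InnerProductGeometry

noncomputable section

namespace Helper99.BQ

namespace H3h

theorem norm_sub_le_angle {x y : ℍ[ℝ]} (hx : ‖x‖ = 1) (hy : ‖y‖ = 1) : ‖x - y‖ ≤ angle x y := by
  have h1 := norm_sub_sq_real x y
  have h2 := cos_angle_mul_norm_mul_norm x y
  rw [hx, hy] at h1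
  rw [hx, hy] at h2
  have h3 := Real.one_sub_sq_div_two_le_cos (x := angle x y)
  have h4 : ‖x - y‖ ^ 2 ≤ angle x y ^ 2 := by nlinarith
  exact (sq_le_sq₀ (norm_nonneg _) (angle_nonneg _ _)).1 h4

theorem dG_nonneg (x y : ℍ[ℝ]) : 0 ≤ dG x y := Real.sqrt_nonneg _

theorem angle_le_dG (x y : ℍ[ℝ]) : angle x y ≤ dG x y := by
  unfold dG
  refine Real.le_sqrt_of_sq_le ?_
  nlinarith [sq_nonneg (Real.log ‖x‖ - Real.log ‖y‖)]

theorem log_le_dG (x y : ℍ[ℝ]) : |Real.log ‖x‖ - Real.log ‖y‖| ≤ dG x y := by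
  unfold dG
  refine Real.abs_le_sqrt ?_
  nlinarith [sq_nonneg (angle x y)]

theorem gen_tendsto {V : Type*} [NormedAddCommGroup V] [InnerProductSpace ℝ V] {a b : ℕ → V}
    {x y : V} (hx : x ≠ 0) (hy : y ≠ 0)
    (ha : Tendsto a atTop (𝓝 x)) (hb : Tendsto b atTop (𝓝 y)) :
    Tendsto (fun n => Real.sqrt (angle (a n) (b n) ^ 2 + (Real.log ‖a n‖ - Real.log ‖b n‖) ^ 2))
      atTop (𝓝 (Real.sqrt (angle x y ^ 2 + (Real.log ‖x‖ - Real.log ‖y‖) ^ 2))) := by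
  have h1 : Tendsto (fun n => angle (a n) (b n)) atTop (𝓝 (angle x y)) := by
    have h0 : ContinuousAt (fun y : V × V => angle y.1 y.2) (x, y) :=
      continuousAt_angle hx hy
    have h2 : Tendsto (fun n => (a n, b n)) atTop (𝓝 (x, y)) := ha.prodMk_nhds hb
    have h3 := h0.tendsto.comp h2
    exact h3
  have h2 : Tendsto (fun n => Real.log ‖a n‖) atTop (𝓝 (Real.log ‖x‖)) :=
    ha.norm.log (norm_ne_zero_iff.2 hx)
  have h3 : Tendsto (fun n => Real.log ‖b n‖) atTop (𝓝 (Real.log ‖y‖)) :=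
    hb.norm.log (norm_ne_zero_iff.2 hy)
  exact ((h1.pow 2).add ((h2.sub h3).pow 2)).sqrt

theorem dG_tendsto {a b : ℕ → ℍ[ℝ]} {x y : ℍ[ℝ]} (hx : x ≠ 0) (hy : y ≠ 0)
    (ha : Tendsto a atTop (𝓝 x)) (hb : Tendsto b atTop (𝓝 y)) :
    Tendsto (fun n => dG (a n) (b n)) atTop (𝓝 (dG x y)) :=
  gen_tendsto hx hy ha hb

theorem eq_of_dG {x y : ℍ[ℝ]} (hx : x ≠ 0) (hy : y ≠ 0) (h : dG x y ≤ 0) : x = y := by
  have h1 := (angle_le_dG x y).trans h
  have h2 := (log_le_dG x y).trans h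
  have h3 : angle x y = 0 := le_antisymm h1 (angle_nonneg _ _)
  have h4 : Real.log ‖x‖ = Real.log ‖y‖ := by
    have := abs_nonpos_iff.1 h2
    linarith
  have h5 : ‖x‖ = ‖y‖ := Real.log_injOn_pos (norm_pos_iff.2 hx) (norm_pos_iff.2 hy) h4
  obtain ⟨-, r, hr, hyr⟩ := angle_eq_zero_iff.1 h3
  rw [hyr, norm_smul, Real.norm_of_nonneg hr.le] at h5
  have h6 : r = 1 := by
    have : ‖x‖ ≠ 0 := norm_ne_zero_iff.2 hx
    field_simp at h5
    linarith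
  rw [hyr, h6, one_smul]

/-- completeness of `dG` -/
theorem complete {y : ℕ → ℍ[ℝ]} (hy : ∀ n, y n ≠ 0)
    (h : ∀ n m : ℕ, dG (y n) (y m) ≤ 1 / ((n : ℝ) + 1) + 1 / ((m : ℝ) + 1)) :
    ∃ z : ℍ[ℝ], z ≠ 0 ∧ Tendsto y atTop (𝓝 z) := by
  have hb : ∀ n m N : ℕ, N ≤ n → N ≤ m → dG (y n) (y m) ≤ 2 * (1 / ((N : ℝ) + 1)) := by
    intro n m N hn hm
    refine (h n m).trans ?_
    have a1 : 1 / ((n : ℝ) + 1) ≤ 1 / ((N : ℝ) + 1) := by gcongr
    have a2 : 1 / ((m : ℝ) + 1) ≤ 1 / ((N : ℝ) + 1) := by gcongr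
    linarith
  have hb0 : Tendsto (fun N : ℕ => 2 * (1 / ((N : ℝ) + 1))) atTop (𝓝 0) := by
    have := tendsto_one_div_add_atTop_nhds_zero_nat (𝕜 := ℝ)
    simpa using this.const_mul 2
  have c1 : CauchySeq (fun n => Real.log ‖y n‖) := by
    refine cauchySeq_of_le_tendsto_0 _ (fun n m N hn hm => ?_) hb0
    rw [Real.dist_eq]
    exact (log_le_dG _ _).trans (hb n m N hn hm)
  have hpos : ∀ n, 0 < ‖y n‖ := fun n => norm_pos_iff.2 (hy n)
  have hu1 : ∀ n, ‖(‖y n‖⁻¹ • y n)‖ = 1 := by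
    intro n
    rw [norm_smul, norm_inv, norm_norm, inv_mul_cancel₀ (hpos n).ne']
  have c2 : CauchySeq (fun n => ‖y n‖⁻¹ • y n) := by
    refine cauchySeq_of_le_tendsto_0 _ (fun n m N hn hm => ?_) hb0
    rw [dist_eq_norm]
    refine (norm_sub_le_angle (hu1 n) (hu1 m)).trans ?_
    rw [angle_smul_left_of_pos _ _ (inv_pos.2 (hpos n)),
      angle_smul_right_of_pos _ _ (inv_pos.2 (hpos m))]
    exact (angle_le_dG _ _).trans (hb n m N hn hm)
  obtain ⟨τ, hτ⟩ := cauchySeq_tendsto_of_complete c1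
  obtain ⟨u, hu⟩ := cauchySeq_tendsto_of_complete c2
  have hun : ‖u‖ = 1 := by
    have a1 := hu.norm
    have a2 : Tendsto (fun n => ‖(‖y n‖⁻¹ • y n)‖) atTop (𝓝 1) := by
      simp_rw [hu1]; exact tendsto_const_nhds
    exact tendsto_nhds_unique a1 a2
  refine ⟨Real.exp τ • u, ?_, ?_⟩
  · refine smul_ne_zero (Real.exp_pos _).ne' ?_
    rw [← norm_ne_zero_iff, hun]; norm_num
  · have := ((Real.continuous_exp.tendsto τ).comp hτ).smul hu
    refine this.congr fun n => ?_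
    simp only [Function.comp_apply]
    rw [Real.exp_log (hpos n), smul_smul, mul_inv_cancel₀ (hpos n).ne', one_smul]

theorem exists_seq (f : HH) : ∃ z : ℍ[ℝ], z ≠ 0 ∧ ∃ (g : ℕ → ℝ → ℍ[ℝ]) (hg : ∀ n, IsPath (g n)),
    (∀ n, g n 0 = 1) ∧ Tendsto (fun n => wLp (g n) (hg n)) atTop (𝓝 f) ∧
    Tendsto (fun n => g n 1) atTop (𝓝 z) := by
  choose g hg h0 hd using fun n : ℕ => dense_paths f (ε := 1 / ((n : ℝ) + 1)) (by positivity)
  have h1 : ∀ n m : ℕ, dG (g n 1) (g m 1) ≤ 1 / ((n : ℝ) + 1) + 1 / ((m : ℝ) + 1) := by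
    intro n m
    refine (dG_le (hg n) (hg m) (h0 n) (h0 m)).trans ?_
    have e1 : wLp (g n) (hg n) - wLp (g m) (hg m) =
        (f - wLp (g m) (hg m)) - (f - wLp (g n) (hg n)) := by abel
    rw [e1]
    refine (norm_sub_le _ _).trans ?_
    have := hd n
    have := hd m
    linarith
  obtain ⟨z, hz, hlim⟩ := complete (fun n => (hg n).ne 1 (by simp)) h1
  refine ⟨z, hz, g, hg, h0, ?_, hlim⟩
  rw [tendsto_iff_norm_sub_tendsto_zero]
  refine squeeze_zero (fun n => norm_nonneg _) (fun n => ?_)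
    (tendsto_one_div_add_atTop_nhds_zero_nat (𝕜 := ℝ))
  rw [norm_sub_rev]
  exact (hd n).le

end H3h

open H3h in
/-- H3 (uses H1b, H2) -/
theorem exists_hol : ∃ hol : HH → ℍ[ℝ], (∀ f, hol f ≠ 0) ∧
    (∀ (g : ℝ → ℍ[ℝ]) (hg : IsPath g), g 0 = 1 → hol (wLp g hg) = g 1) ∧
    ∀ f f' : HH, dG (hol f) (hol f') ≤ ‖f - f'‖ := by
  choose hol hne g hg h0 hlim hlim1 using exists_seq
  refine ⟨hol, hne, fun g' hg' h0' => ?_, fun f f' => ?_⟩
  · refine eq_of_dG (hne _) (hg'.ne 1 (by simp)) ?_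
    have a1 := dG_tendsto (hne (wLp g' hg')) (hg'.ne 1 (by simp)) (hlim1 (wLp g' hg'))
      tendsto_const_nhds
    have a2 := tendsto_iff_norm_sub_tendsto_zero.1 (hlim (wLp g' hg'))
    exact le_of_tendsto_of_tendsto' a1 a2 fun n => dG_le _ _ (h0 _ _) h0'
  · have a1 := dG_tendsto (hne f) (hne f') (hlim1 f) (hlim1 f')
    have a2 := ((hlim f).sub (hlim f')).norm
    exact le_of_tendsto_of_tendsto' a1 a2 fun n => dG_le _ _ (h0 _ _) (h0 _ _)

end Helper99.BQ
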