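import Pool.Agent.Helper60.BQ.H1

/-! MP_986e36_gt, block H4: gauge transformations. -/

open scoped Quaternion Topology ENNReal
open Set Metric MeasureTheory Filter

noncomputable section

namespace Helper99.BQ

namespace H4h

theorem ae_mem : ∀ᵐ t ∂μI, t ∈ Icc (0 : ℝ) 1 := by
  unfold μI
  exact ae_restrict_mem measurableSet_Icc

theorem contOn_inv {k : ℝ → ℍ[ℝ]} (hk : ContinuousOn k (Icc 0 1))
    (hk0 : ∀ t ∈ Icc (0 : ℝ) 1, k t ≠ 0) : ContinuousOn (fun t => (k t)⁻¹) (Icc 0 1) :=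
  hk.inv₀ hk0

theorem aesm {k : ℝ → ℍ[ℝ]} (hk : ContinuousOn k (Icc 0 1)) : AEStronglyMeasurable k μI :=
  hk.aestronglyMeasurable measurableSet_Icc

theorem norm_conj {a x : ℍ[ℝ]} (ha : a ≠ 0) : ‖a * x * a⁻¹‖ = ‖x‖ := by
  rw [norm_mul, norm_mul, norm_inv]
  have : ‖a‖ ≠ 0 := norm_ne_zero_iff.2 ha
  field_simp

theorem memLp_conj {k : ℝ → ℍ[ℝ]} (hk : ContinuousOn k (Icc 0 1))
    (hk0 : ∀ t ∈ Icc (0 : ℝ) 1, k t ≠ 0) {f : ℝ → ℍ[ℝ]} (hf : MemLp f 2 μI) :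
    MemLp (fun t => k t * f t * (k t)⁻¹) 2 μI := by
  refine hf.of_le (((aesm hk).mul hf.1).mul (aesm (contOn_inv hk hk0))) ?_
  filter_upwards [ae_mem] with t ht
  exact (norm_conj (hk0 t ht)).le

/-- pointwise conjugation as a map of `L²` -/
def cj {k : ℝ → ℍ[ℝ]} (hk : ContinuousOn k (Icc 0 1))
    (hk0 : ∀ t ∈ Icc (0 : ℝ) 1, k t ≠ 0) (f : HH) : HH :=
  (memLp_conj hk hk0 (Lp.memLp f)).toLp _

theorem cj_spec {k : ℝ → ℍ[ℝ]} (hk : ContinuousOn k (Icc 0 1))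
    (hk0 : ∀ t ∈ Icc (0 : ℝ) 1, k t ≠ 0) (f : HH) :
    cj hk hk0 f =ᵐ[μI] fun t => k t * f t * (k t)⁻¹ := MemLp.coeFn_toLp _

theorem cj_isometry {k : ℝ → ℍ[ℝ]} (hk : ContinuousOn k (Icc 0 1))
    (hk0 : ∀ t ∈ Icc (0 : ℝ) 1, k t ≠ 0) : Isometry (cj hk hk0) := by
  intro f f'
  rw [Lp.edist_def, Lp.edist_def]
  refine eLpNorm_congr_norm_ae ?_
  filter_upwards [ae_mem, cj_spec hk hk0 f, cj_spec hk hk0 f'] with t ht h1 h2
  rw [Pi.sub_apply, Pi.sub_apply, h1, h2, ← sub_mul, ← mul_sub, norm_conj (hk0 t ht)]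

theorem cj_right_inv {k : ℝ → ℍ[ℝ]} (hk : ContinuousOn k (Icc 0 1))
    (hk0 : ∀ t ∈ Icc (0 : ℝ) 1, k t ≠ 0) (f : HH) :
    cj hk hk0 (cj (contOn_inv hk hk0) (fun t ht => inv_ne_zero (hk0 t ht)) f) = f := by
  apply Lp.ext
  filter_upwards [ae_mem, cj_spec hk hk0 (cj (contOn_inv hk hk0)
    (fun t ht => inv_ne_zero (hk0 t ht)) f), cj_spec (contOn_inv hk hk0)
    (fun t ht => inv_ne_zero (hk0 t ht)) f] with t ht h1 h2
  rw [h1, h2, inv_inv]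
  have h3 := hk0 t ht
  rw [mul_assoc, mul_assoc, mul_assoc, mul_inv_cancel₀ h3, mul_one, mul_inv_cancel_left₀ h3]

/-- conjugation as an isometry -/
def cjIso {k : ℝ → ℍ[ℝ]} (hk : ContinuousOn k (Icc 0 1))
    (hk0 : ∀ t ∈ Icc (0 : ℝ) 1, k t ≠ 0) : HH ≃ᵢ HH :=
  IsometryEquiv.mk' (cj hk hk0) (cj (contOn_inv hk hk0) (fun t ht => inv_ne_zero (hk0 t ht)))
    (cj_right_inv hk hk0) (cj_isometry hk hk0)

theorem contDiffOn_inv' {k : ℝ → ℍ[ℝ]} (hk : IsPath k) :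
    ContDiffOn ℝ 1 (fun t => (k t)⁻¹) (Icc 0 1) := by
  intro t ht
  have h1 : ContDiffAt ℝ 1 (Inv.inv : ℍ[ℝ] → ℍ[ℝ]) (k t) := by
    simpa only [Ring.inverse_eq_inv'] using! contDiffAt_ringInverse ℝ (Units.mk0 (k t) (hk.ne t ht))
  exact h1.comp_contDiffWithinAt t (hk.smooth t ht)

theorem isPath_gauge {k g : ℝ → ℍ[ℝ]} (hk : IsPath k) (hg : IsPath g) :
    IsPath (fun t => k 0 * g t * (k t)⁻¹) := by
  refine ⟨(contDiffOn_const.mul hg.smooth).mul (contDiffOn_inv' hk), fun t ht => ?_⟩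
  exact mul_ne_zero (mul_ne_zero (hk.ne 0 (by simp)) (hg.ne t ht)) (inv_ne_zero (hk.ne t ht))

theorem path_hasDeriv {g : ℝ → ℍ[ℝ]} (hg : IsPath g) {t : ℝ} (ht : t ∈ Icc (0 : ℝ) 1) :
    HasDerivWithinAt g (derivWithin g (Icc 0 1) t) (Icc 0 1) t :=
  ((hg.smooth.differentiableOn (by norm_num)) t ht).hasDerivWithinAt

theorem vel_gauge {k g : ℝ → ℍ[ℝ]} (hk : IsPath k) (hg : IsPath g) {t : ℝ}
    (ht : t ∈ Icc (0 : ℝ) 1) :
    vel (fun t => k 0 * g t * (k t)⁻¹) t = k t * (vel g t - vel k t) * (k t)⁻¹ := by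
  have hgd := path_hasDeriv hg ht
  have hkd := path_hasDeriv hk ht
  have hk1 := hk.ne t ht
  have hg1 := hg.ne t ht
  have hk0 := hk.ne 0 (by simp)
  have hinv : HasDerivWithinAt (fun t => (k t)⁻¹)
      (-((k t)⁻¹ * derivWithin k (Icc 0 1) t * (k t)⁻¹)) (Icc 0 1) t := by
    have := (hasFDerivAt_inv' (𝕜 := ℝ) hk1).comp_hasDerivWithinAt t hkd
    simp only [ContinuousLinearMap.neg_apply, ContinuousLinearMap.mulLeftRight_apply] at this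
    exact this
  have h1 := ((hgd.const_mul (k 0)).mul hinv).derivWithin (uniqueDiffOn_Icc one_pos t ht)
  unfold vel
  have h2 : derivWithin (fun t => k 0 * g t * (k t)⁻¹) (Icc 0 1) t =
      k 0 * derivWithin g (Icc 0 1) t * (k t)⁻¹ +
        k 0 * g t * -((k t)⁻¹ * derivWithin k (Icc 0 1) t * (k t)⁻¹) := h1
  rw [h2, mul_inv_rev, mul_inv_rev, inv_inv]
  simp only [mul_add, mul_sub, add_mul, sub_mul, mul_neg, neg_mul, mul_assoc,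
    inv_mul_cancel_left₀ hk0, inv_mul_cancel_left₀ hg1]
  rw [sub_eq_add_neg]

end H4h

/-- H4: gauge transformations are isometries of `L²`. -/
theorem exists_gauge {k : ℝ → ℍ[ℝ]} (hk : IsPath k) : ∃ T : HH ≃ᵢ HH,
    ∀ (g : ℝ → ℍ[ℝ]) (hg : IsPath g), ∃ h' : IsPath (fun t => k 0 * g t * (k t)⁻¹),
      T (wLp g hg) = wLp (fun t => k 0 * g t * (k t)⁻¹) h' := by
  refine ⟨(IsometryEquiv.subRight (wLp k hk)).trans (H4h.cjIso hk.smooth.continuousOn hk.ne),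
    fun g hg => ⟨H4h.isPath_gauge hk hg, ?_⟩⟩
  apply Lp.ext
  have e1 : ((IsometryEquiv.subRight (wLp k hk)).trans
      (H4h.cjIso hk.smooth.continuousOn hk.ne)) (wLp g hg) =
      H4h.cj hk.smooth.continuousOn hk.ne (wLp g hg - wLp k hk) := rfl
  rw [e1]
  have h1 := H4h.cj_spec hk.smooth.continuousOn hk.ne (wLp g hg - wLp k hk)
  have h2 := Lp.coeFn_sub (wLp g hg) (wLp k hk)
  have h3 : wLp g hg =ᵐ[μI] vel g := MemLp.coeFn_toLp (memLp_vel hg)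
  have h4 : wLp k hk =ᵐ[μI] vel k := MemLp.coeFn_toLp (memLp_vel hk)
  have h5 : wLp (fun t => k 0 * g t * (k t)⁻¹) (H4h.isPath_gauge hk hg) =ᵐ[μI]
      vel (fun t => k 0 * g t * (k t)⁻¹) := MemLp.coeFn_toLp _
  filter_upwards [H4h.ae_mem, h1, h2, h3, h4, h5] with t ht a1 a2 a3 a4 a5
  rw [a1, a2, a5, Pi.sub_apply, a3, a4, H4h.vel_gauge hk hg ht]

end Helper99.BQ
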