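import Pool.Agent.Helper99.BQ.Defs

/-! MP_986e36_gt, block E1: existence of the exponential map. -/

open scoped Topology
open Set Metric Filter

noncomputable section

namespace Helper99.BQ

namespace E1h

section
variable {K : Type*} [Group K] [MetricSpace K]

theorem dist_mul_mul_le (hK : BiInv K) (a b a' b' : K) :
    dist (a * b) (a' * b') ≤ dist a a' + dist b b' := by
  calc dist (a * b) (a' * b') ≤ dist (a * b) (a' * b) + dist (a' * b) (a' * b') :=
        dist_triangle _ _ _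
    _ = dist a a' + dist b b' := by rw [hK.right, hK.left]

theorem dist_pow_le (hK : BiInv K) (a b : K) (m : ℕ) :
    dist (a ^ m) (b ^ m) ≤ m * dist a b := by
  induction m with
  | zero => simp
  | succ m ih =>
    rw [pow_succ, pow_succ]
    calc _ ≤ dist (a ^ m) (b ^ m) + dist a b := dist_mul_mul_le hK _ _ _ _
      _ ≤ m * dist a b + dist a b := by gcongr
      _ = ((m + 1 : ℕ) : ℝ) * dist a b := by push_cast; ring

theorem dist_inv_right (hK : BiInv K) (a b : K) : dist a b⁻¹ = dist (a * b) 1 := by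
  rw [← hK.right b a b⁻¹, inv_mul_cancel]

theorem dist_inv_inv (hK : BiInv K) (a b : K) : dist a⁻¹ b⁻¹ = dist a b := by
  rw [dist_inv_right hK, ← hK.left a (a⁻¹ * b) 1]
  simp [dist_comm]

theorem continuous_mul' (hK : BiInv K) : Continuous fun q : K × K => q.1 * q.2 := by
  rw [Metric.continuous_iff]
  intro q ε hε
  refine ⟨ε / 2, by positivity, fun q' hq' => ?_⟩
  have h1 : dist q'.1 q.1 < ε / 2 := lt_of_le_of_lt (le_max_left _ _) hq'
  have h2 : dist q'.2 q.2 < ε / 2 := lt_of_le_of_lt (le_max_right _ _) hq'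
  have := dist_mul_mul_le hK q'.1 q'.2 q.1 q.2
  linarith

end

section
variable {K : Type*} [Group K] [MetricSpace K] {E : Type*} [NormedAddCommGroup E]
  [InnerProductSpace ℝ E]

/-- multiplication in the chart to first order -/
theorem chart_mul (c : LocChart K E) : ∃ r > 0, ∀ x y : E, ‖x‖ < r → ‖y‖ < r →
    dist (c.ψ x * c.ψ y) (c.ψ (x + y)) ≤ 2 * c.C * (‖x‖ + ‖y‖) ^ 2 := by
  obtain ⟨r1, hr1, h1⟩ := c.metric 1 one_pos
  have hC := c.C_nonneg
  refine ⟨min c.δ (min (1 / 2) (r1 / (2 * (1 + c.C)))), lt_min c.δ_pos (lt_min (by norm_num)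
    (by positivity)), fun x y hx hy => ?_⟩
  have hx1 : ‖x‖ < c.δ := lt_of_lt_of_le hx (min_le_left _ _)
  have hy1 : ‖y‖ < c.δ := lt_of_lt_of_le hy (min_le_left _ _)
  have hx2 : ‖x‖ < 1 / 2 := lt_of_lt_of_le hx ((min_le_right _ _).trans (min_le_left _ _))
  have hy2 : ‖y‖ < 1 / 2 := lt_of_lt_of_le hy ((min_le_right _ _).trans (min_le_left _ _))
  have hx3 : ‖x‖ < r1 / (2 * (1 + c.C)) :=
    lt_of_lt_of_le hx ((min_le_right _ _).trans (min_le_right _ _))
  have hy3 : ‖y‖ < r1 / (2 * (1 + c.C)) :=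
    lt_of_lt_of_le hy ((min_le_right _ _).trans (min_le_right _ _))
  have hz : ‖(0 : E)‖ < c.δ := by simpa using c.δ_pos
  have hmu : ‖c.μ x y - (x + y)‖ ≤ c.C * (‖x‖ + ‖y‖) ^ 2 := by
    have := c.μ_lip x y 0 0 hx1 hy1 hz hz
    simp only [c.μ_zero, sub_zero, norm_zero, add_zero] at this
    calc ‖c.μ x y - (x + y)‖ = ‖c.μ x y - x - y‖ := by congr 1; abel
      _ ≤ c.C * (‖x‖ + ‖y‖) * (‖x‖ + ‖y‖) := this
      _ = c.C * (‖x‖ + ‖y‖) ^ 2 := by ring
  have hs : ‖x‖ + ‖y‖ < r1 / (1 + c.C) := by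
    have : r1 / (1 + c.C) = r1 / (2 * (1 + c.C)) + r1 / (2 * (1 + c.C)) := by
      field_simp; ring
    rw [this]; linarith
  have hs' : (‖x‖ + ‖y‖) * (1 + c.C) < r1 := by
    rwa [lt_div_iff₀ (by positivity)] at hs
  have hnx := norm_nonneg x
  have hny := norm_nonneg y
  have hsum : ‖x + y‖ < r1 := by
    have := norm_add_le x y
    nlinarith
  have hmu2 : ‖c.μ x y‖ < r1 := by
    have h3 : ‖c.μ x y‖ ≤ ‖c.μ x y - (x + y)‖ + ‖x + y‖ := by
      have := norm_add_le (c.μ x y - (x + y)) (x + y)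
      simpa using this
    have h4 := norm_add_le x y
    have h5 : c.C * (‖x‖ + ‖y‖) ^ 2 ≤ c.C * (‖x‖ + ‖y‖) := by
      have : (‖x‖ + ‖y‖) ^ 2 ≤ (‖x‖ + ‖y‖) := by nlinarith
      exact mul_le_mul_of_nonneg_left this hC
    nlinarith
  rw [c.mul x y hx1 hy1]
  have := h1 (c.μ x y) (x + y) hmu2 hsum
  rw [abs_le] at this
  have h6 := this.2
  linarith

theorem chart_metric (c : LocChart K E) {ε : ℝ} (hε : 0 < ε) : ∃ r > 0, ∀ x y : E, ‖x‖ < r →
    ‖y‖ < r → dist (c.ψ x) (c.ψ y) ≤ (1 + ε) * ‖x - y‖ := by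
  obtain ⟨r, hr, h⟩ := c.metric ε hε
  refine ⟨r, hr, fun x y hx hy => ?_⟩
  have := h x y hx hy
  rw [abs_le] at this
  linarith [this.2]

theorem chart_pow (hK : BiInv K) (c : LocChart K E) (k : ℕ) : ∃ C' : ℝ, 0 ≤ C' ∧ ∃ r > 0,
    ∀ x : E, ‖x‖ < r → dist (c.ψ x ^ k) (c.ψ ((k : ℝ) • x)) ≤ C' * ‖x‖ ^ 2 := by
  obtain ⟨r0, hr0, h0⟩ := chart_mul c
  induction k with
  | zero =>
    refine ⟨0, le_rfl, 1, one_pos, fun x hx => ?_⟩
    simp [c.ψ_zero]
  | succ k ih =>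
    obtain ⟨C1, hC1, r1, hr1, h1⟩ := ih
    have hC := c.C_nonneg
    refine ⟨C1 + 2 * c.C * ((k : ℝ) + 1) ^ 2, by positivity, min r1 (r0 / ((k : ℝ) + 1)),
      lt_min hr1 (by positivity), fun x hx => ?_⟩
    have hx1 : ‖x‖ < r1 := lt_of_lt_of_le hx (min_le_left _ _)
    have hx2 : ‖x‖ < r0 / ((k : ℝ) + 1) := lt_of_lt_of_le hx (min_le_right _ _)
    have hx3 : ‖x‖ * ((k : ℝ) + 1) < r0 := by rwa [lt_div_iff₀ (by positivity)] at hx2
    have hnx := norm_nonneg x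
    have hk : (0 : ℝ) ≤ k := Nat.cast_nonneg k
    have hkx : ‖(k : ℝ) • x‖ < r0 := by
      rw [norm_smul, Real.norm_of_nonneg hk]
      nlinarith
    have hx0 : ‖x‖ < r0 := by nlinarith
    have h2 := h0 ((k : ℝ) • x) x hkx hx0
    have h3 := h1 x hx1
    have e1 : ((k + 1 : ℕ) : ℝ) • x = (k : ℝ) • x + x := by
      push_cast; rw [add_smul, one_smul]
    rw [e1, pow_succ]
    calc dist (c.ψ x ^ k * c.ψ x) (c.ψ ((k : ℝ) • x + x))
        ≤ dist (c.ψ x ^ k * c.ψ x) (c.ψ ((k : ℝ) • x) * c.ψ x) +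
          dist (c.ψ ((k : ℝ) • x) * c.ψ x) (c.ψ ((k : ℝ) • x + x)) := dist_triangle _ _ _
      _ ≤ C1 * ‖x‖ ^ 2 + 2 * c.C * (‖(k : ℝ) • x‖ + ‖x‖) ^ 2 := by
          rw [hK.right]; exact add_le_add h3 h2
      _ = (C1 + 2 * c.C * ((k : ℝ) + 1) ^ 2) * ‖x‖ ^ 2 := by
          rw [norm_smul, Real.norm_of_nonneg hk]; ring

theorem tendsto_norm_div (X : E) (r : ℝ) (hr : 0 < r) :
    ∀ᶠ n : ℕ in atTop, ‖((1 / 2 : ℝ) ^ n) • X‖ < r := by
  have h : Tendsto (fun n : ℕ => ((1 / 2 : ℝ) ^ n) * ‖X‖) atTop (𝓝 (0 * ‖X‖)) :=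
    (tendsto_pow_atTop_nhds_zero_of_lt_one (by norm_num) (by norm_num)).mul_const _
  rw [zero_mul] at h
  filter_upwards [h.eventually (gt_mem_nhds hr)] with n hn
  rw [norm_smul, Real.norm_of_nonneg (by positivity)]
  exact hn

/-- the approximations -/
def p (c : LocChart K E) (n : ℕ) (X : E) : K := c.ψ (((1 / 2 : ℝ) ^ n) • X) ^ (2 ^ n)

theorem dist_p_succ (hK : BiInv K) (c : LocChart K E) {r : ℝ}
    (h0 : ∀ x y : E, ‖x‖ < r → ‖y‖ < r →
      dist (c.ψ x * c.ψ y) (c.ψ (x + y)) ≤ 2 * c.C * (‖x‖ + ‖y‖) ^ 2) (n : ℕ) (X : E)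
    (hX : ‖((1 / 2 : ℝ) ^ (n + 1)) • X‖ < r) :
    dist (p c n X) (p c (n + 1) X) ≤ 4 * c.C * ‖X‖ ^ 2 / 2 / 2 ^ n := by
  have h1 := h0 _ _ hX hX
  have e1 : ((1 / 2 : ℝ) ^ (n + 1)) • X + ((1 / 2 : ℝ) ^ (n + 1)) • X = ((1 / 2 : ℝ) ^ n) • X := by
    rw [← add_smul]; congr 1; ring
  rw [e1] at h1
  unfold p
  rw [show (2 : ℕ) ^ (n + 1) = 2 * 2 ^ n by ring, pow_mul, pow_two]
  refine (dist_pow_le hK _ _ _).trans ?_
  rw [dist_comm]
  have e2 : ‖((1 / 2 : ℝ) ^ (n + 1)) • X‖ = (1 / 2 : ℝ) ^ (n + 1) * ‖X‖ := by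
    rw [norm_smul, Real.norm_of_nonneg (by positivity)]
  rw [e2] at h1
  have h2n : (0 : ℝ) ≤ ((2 ^ n : ℕ) : ℝ) := by positivity
  refine (mul_le_mul_of_nonneg_left h1 h2n).trans (le_of_eq ?_)
  push_cast
  rw [one_div, inv_pow, pow_succ]
  field_simp
  ring

theorem exists_limit [CompleteSpace K] (hK : BiInv K) (c : LocChart K E) (X : E) :
    ∃ L : K, Tendsto (fun n => p c n X) atTop (𝓝 L) := by
  obtain ⟨r, hr, h0⟩ := chart_mul c
  obtain ⟨N, hN⟩ := eventually_atTop.1 (tendsto_norm_div X r hr)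
  have hC := c.C_nonneg
  have h1 : CauchySeq (fun n => p c (n + N) X) := by
    refine cauchySeq_of_le_geometric_two (C := 4 * c.C * ‖X‖ ^ 2) fun n => ?_
    have h2 := dist_p_succ hK c h0 (n + N) X (hN _ (by omega))
    rw [show n + N + 1 = n + 1 + N by ring] at h2
    refine h2.trans ?_
    gcongr
    · norm_num
    · omega
  obtain ⟨L, hL⟩ := cauchySeq_tendsto_of_complete h1
  exact ⟨L, (tendsto_add_atTop_iff_nat N).1 hL⟩

/-- the exponential map -/
def ex [CompleteSpace K] (hK : BiInv K) (c : LocChart K E) (X : E) : K :=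
  (exists_limit hK c X).choose

theorem ex_spec [CompleteSpace K] (hK : BiInv K) (c : LocChart K E) (X : E) :
    Tendsto (fun n => p c n X) atTop (𝓝 (ex hK c X)) := (exists_limit hK c X).choose_spec

theorem ex_lip [CompleteSpace K] (hK : BiInv K) (c : LocChart K E) (X Y : E) :
    dist (ex hK c X) (ex hK c Y) ≤ ‖X - Y‖ := by
  have key : ∀ ε > 0, dist (ex hK c X) (ex hK c Y) ≤ (1 + ε) * ‖X - Y‖ := by
    intro ε hε
    obtain ⟨r, hr, h⟩ := chart_metric c hε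
    refine le_of_tendsto ((ex_spec hK c X).dist (ex_spec hK c Y)) ?_
    filter_upwards [tendsto_norm_div X r hr, tendsto_norm_div Y r hr] with n h1 h2
    unfold p
    refine (dist_pow_le hK _ _ _).trans ?_
    have h3 := h _ _ h1 h2
    rw [← smul_sub, norm_smul, Real.norm_of_nonneg (by positivity)] at h3
    have h2n : (0 : ℝ) ≤ ((2 ^ n : ℕ) : ℝ) := by positivity
    refine (mul_le_mul_of_nonneg_left h3 h2n).trans (le_of_eq ?_)
    push_cast
    rw [one_div, inv_pow]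
    field_simp
  have h2 : Tendsto (fun ε : ℝ => (1 + ε) * ‖X - Y‖) (𝓝[>] 0) (𝓝 ((1 + 0) * ‖X - Y‖)) := by
    apply Tendsto.mul_const
    apply Tendsto.const_add
    exact tendsto_nhdsWithin_of_tendsto_nhds tendsto_id
  have h3 := ge_of_tendsto h2 (by
    filter_upwards [self_mem_nhdsWithin] with ε hε using key ε hε)
  simpa using h3

theorem ex_near [CompleteSpace K] (hK : BiInv K) (c : LocChart K E) :
    ∃ C' : ℝ, 0 ≤ C' ∧ ∃ r > 0, ∀ X : E, ‖X‖ < r →
      dist (ex hK c X) (c.ψ X) ≤ C' * ‖X‖ ^ 2 := by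
  obtain ⟨r, hr, h0⟩ := chart_mul c
  have hC := c.C_nonneg
  refine ⟨4 * c.C, by positivity, r, hr, fun X hX => ?_⟩
  have h1 : ∀ n, dist (p c n X) (p c (n + 1) X) ≤ 4 * c.C * ‖X‖ ^ 2 / 2 / 2 ^ n := by
    intro n
    refine dist_p_succ hK c h0 n X ?_
    rw [norm_smul, Real.norm_of_nonneg (by positivity)]
    have : (1 / 2 : ℝ) ^ (n + 1) ≤ 1 := pow_le_one₀ (by norm_num) (by norm_num)
    nlinarith [norm_nonneg X]
  have h2 := dist_le_of_le_geometric_two_of_tendsto₀ h1 (ex_spec hK c X)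
  have h3 : p c 0 X = c.ψ X := by simp [p]
  rw [h3] at h2
  rw [dist_comm]
  exact h2

theorem tendsto_quad (X : E) (C' : ℝ) :
    Tendsto (fun n : ℕ => ((2 ^ n : ℕ) : ℝ) * (C' * ‖((1 / 2 : ℝ) ^ n) • X‖ ^ 2)) atTop (𝓝 0) := by
  have h : Tendsto (fun n : ℕ => ((1 / 2 : ℝ) ^ n) * (C' * ‖X‖ ^ 2)) atTop
      (𝓝 (0 * (C' * ‖X‖ ^ 2))) :=
    (tendsto_pow_atTop_nhds_zero_of_lt_one (by norm_num) (by norm_num)).mul_const _
  rw [zero_mul] at h
  refine h.congr fun n => ?_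
  rw [norm_smul, Real.norm_of_nonneg (by positivity)]
  push_cast
  rw [one_div, inv_pow]
  field_simp

theorem ex_nat_smul [CompleteSpace K] (hK : BiInv K) (c : LocChart K E) (k : ℕ) (X : E) :
    ex hK c ((k : ℝ) • X) = ex hK c X ^ k := by
  obtain ⟨C', hC', r, hr, h⟩ := chart_pow hK c k
  have hmul := continuous_mul' hK
  have hpow : Continuous fun x : K => x ^ k := by
    induction k with
    | zero => simpa using continuous_const
    | succ k ih =>
      have : ∀ k : ℕ, Continuous fun x : K => x ^ k := by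
        intro k
        induction k with
        | zero => simpa using continuous_const
        | succ k ih =>
          have := hmul.comp (ih.prodMk continuous_id)
          simpa [Function.comp_def, pow_succ] using this
      exact this _
  have h1 : Tendsto (fun n => dist (p c n ((k : ℝ) • X)) (p c n X ^ k)) atTop
      (𝓝 (dist (ex hK c ((k : ℝ) • X)) (ex hK c X ^ k))) :=
    (ex_spec hK c _).dist ((hpow.tendsto _).comp (ex_spec hK c X))
  have h2 : Tendsto (fun n => dist (p c n ((k : ℝ) • X)) (p c n X ^ k)) atTop (𝓝 0) := by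
    refine squeeze_zero' (Eventually.of_forall fun n => dist_nonneg) ?_ (tendsto_quad X C')
    filter_upwards [tendsto_norm_div X r hr] with n hn
    unfold p
    rw [← pow_mul, mul_comm (2 ^ n) k, pow_mul]
    refine (dist_pow_le hK _ _ _).trans ?_
    refine mul_le_mul_of_nonneg_left ?_ (by positivity)
    rw [dist_comm, smul_comm]
    exact h _ hn
  exact dist_eq_zero.1 (tendsto_nhds_unique h1 h2)

theorem ex_neg [CompleteSpace K] (hK : BiInv K) (c : LocChart K E) (X : E) :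
    ex hK c (-X) = (ex hK c X)⁻¹ := by
  obtain ⟨r, hr, h⟩ := chart_mul c
  have hinv : Continuous fun x : K => x⁻¹ := by
    refine (LipschitzWith.of_dist_le_mul (K := 1) fun x y => ?_).continuous
    rw [dist_inv_inv hK]; simp
  have h1 : Tendsto (fun n => dist (p c n (-X)) (p c n X)⁻¹) atTop
      (𝓝 (dist (ex hK c (-X)) (ex hK c X)⁻¹)) :=
    (ex_spec hK c _).dist ((hinv.tendsto _).comp (ex_spec hK c X))
  have h2 : Tendsto (fun n => dist (p c n (-X)) (p c n X)⁻¹) atTop (𝓝 0) := by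
    refine squeeze_zero' (Eventually.of_forall fun n => dist_nonneg) ?_
      (tendsto_quad X (2 * c.C * 4))
    filter_upwards [tendsto_norm_div X r hr] with n hn
    unfold p
    rw [← inv_pow]
    refine (dist_pow_le hK _ _ _).trans ?_
    refine mul_le_mul_of_nonneg_left ?_ (by positivity)
    rw [dist_inv_right hK]
    have h3 := h (((1 / 2 : ℝ) ^ n) • (-X)) (((1 / 2 : ℝ) ^ n) • X) (by simpa using hn) hn
    rw [← smul_add, neg_add_cancel, smul_zero, c.ψ_zero] at h3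
    refine h3.trans (le_of_eq ?_)
    rw [smul_neg, norm_neg]
    ring
  exact dist_eq_zero.1 (tendsto_nhds_unique h1 h2)

theorem ex_int_smul [CompleteSpace K] (hK : BiInv K) (c : LocChart K E) (k : ℤ) (X : E) :
    ex hK c ((k : ℝ) • X) = ex hK c X ^ k := by
  obtain ⟨n, rfl | rfl⟩ := k.eq_nat_or_neg
  · simpa using ex_nat_smul hK c n X
  · rw [Int.cast_neg, neg_smul, ex_neg, Int.cast_natCast, ex_nat_smul, zpow_neg, zpow_natCast]

theorem tendsto_floor (s : ℝ) :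
    Tendsto (fun n : ℕ => (⌊s * ((n : ℝ) + 1)⌋ : ℝ) / ((n : ℝ) + 1)) atTop (𝓝 s) := by
  have h0 : Tendsto (fun n : ℕ => s - 1 / ((n : ℝ) + 1)) atTop (𝓝 (s - 0)) :=
    tendsto_const_nhds.sub tendsto_one_div_add_atTop_nhds_zero_nat
  rw [sub_zero] at h0
  refine tendsto_of_tendsto_of_tendsto_of_le_of_le h0 tendsto_const_nhds (fun n => ?_)
    (fun n => ?_)
  · have hn : (0 : ℝ) < (n : ℝ) + 1 := by positivity
    have := (Int.sub_one_lt_floor (s * ((n : ℝ) + 1))).le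
    simp only
    rw [le_div_iff₀ hn, sub_mul, one_div, inv_mul_cancel₀ hn.ne']
    exact this
  · have hn : (0 : ℝ) < (n : ℝ) + 1 := by positivity
    simp only
    rw [div_le_iff₀ hn]
    exact Int.floor_le _

theorem ex_add [CompleteSpace K] (hK : BiInv K) (c : LocChart K E) (X : E) (s t : ℝ) :
    ex hK c ((s + t) • X) = ex hK c (s • X) * ex hK c (t • X) := by
  have hcont : Continuous (ex hK c) := by
    refine (LipschitzWith.of_dist_le_mul (K := 1) fun x y => ?_).continuous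
    rw [NNReal.coe_one, one_mul, dist_eq_norm]
    exact ex_lip hK c x y
  have hc1 : Continuous fun s : ℝ => ex hK c (s • X) :=
    hcont.comp (continuous_id.smul continuous_const)
  have hs := tendsto_floor s
  have ht := tendsto_floor t
  have h1 : Tendsto (fun n : ℕ => ex hK c (((⌊s * ((n : ℝ) + 1)⌋ : ℝ) / ((n : ℝ) + 1) +
      (⌊t * ((n : ℝ) + 1)⌋ : ℝ) / ((n : ℝ) + 1)) • X)) atTop (𝓝 (ex hK c ((s + t) • X))) :=
    (hc1.tendsto _).comp (hs.add ht)
  have h2 : Tendsto (fun n : ℕ => ex hK c (((⌊s * ((n : ℝ) + 1)⌋ : ℝ) / ((n : ℝ) + 1)) • X) *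
      ex hK c (((⌊t * ((n : ℝ) + 1)⌋ : ℝ) / ((n : ℝ) + 1)) • X)) atTop
      (𝓝 (ex hK c (s • X) * ex hK c (t • X))) :=
    ((continuous_mul' hK).tendsto (ex hK c (s • X), ex hK c (t • X))).comp
      (((hc1.tendsto _).comp hs).prodMk_nhds ((hc1.tendsto _).comp ht))
  refine tendsto_nhds_unique h1 (h2.congr fun n => ?_)
  have e : ∀ a : ℤ, ((a : ℝ) / ((n : ℝ) + 1)) • X = (a : ℝ) • ((1 / ((n : ℝ) + 1)) • X) := by
    intro a; rw [smul_smul]; congr 1; ring
  have e' : ((⌊s * ((n : ℝ) + 1)⌋ : ℝ) / ((n : ℝ) + 1) +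
      (⌊t * ((n : ℝ) + 1)⌋ : ℝ) / ((n : ℝ) + 1)) • X =
      ((⌊s * ((n : ℝ) + 1)⌋ + ⌊t * ((n : ℝ) + 1)⌋ : ℤ) : ℝ) • ((1 / ((n : ℝ) + 1)) • X) := by
    rw [smul_smul]; push_cast; congr 1; ring
  rw [e, e, e', ex_int_smul, ex_int_smul, ex_int_smul, zpow_add]

end

end E1h

variable {K : Type*} [Group K] [MetricSpace K] {E : Type*} [NormedAddCommGroup E]
  [InnerProductSpace ℝ E]

/-- E1 -/
theorem exists_exp [CompleteSpace K] (hK : BiInv K) (c : LocChart K E) :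
    ∃ exp : E → K, (∀ (X : E) (s t : ℝ), exp ((s + t) • X) = exp (s • X) * exp (t • X)) ∧
      (∀ X Y : E, dist (exp X) (exp Y) ≤ ‖X - Y‖) ∧
      ∃ C' : ℝ, 0 ≤ C' ∧ ∃ r > 0, ∀ X : E, ‖X‖ < r → dist (exp X) (c.ψ X) ≤ C' * ‖X‖ ^ 2 :=
  ⟨E1h.ex hK c, E1h.ex_add hK c, E1h.ex_lip hK c, E1h.ex_near hK c⟩

end Helper99.BQ
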